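import Pool.Agent.Lib.MP_20522e_al.Final

set_option autoImplicit false

/-!
The free alternative ring on three generators has no nonzero ideal in its commutative center.
-/

namespace Pool.Agent.Results.MP_20522e_al.RankThree

universe u

/-- The relations `(u, u, v) = 0` and `(v, u, u) = 0` in the free nonassociative ring (without
unit) on `X`. -/
def altRel (X : Type u) (a b : FreeNonUnitalNonAssocAlgebra ℤ X) : Prop :=
  ∃ u v : FreeNonUnitalNonAssocAlgebra ℤ X,
    (a = (u * u) * v - u * (u * v) ∨ a = (v * u) * u - v * (u * u)) ∧ b = 0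

/-- The free alternative ring `Alt[X]`: the quotient of the free nonassociative ring on `X` by the
ideal generated by all associators `(u, u, v)` and `(v, u, u)`. -/
abbrev Alt (X : Type u) : Type u := (ringConGen (altRel X)).Quotient

/-- The generator of `Alt[X]` which belongs to the element `x` of `X`. -/
noncomputable def gen {X : Type u} (x : X) : Alt X :=
  RingCon.toQuotient (FreeNonUnitalNonAssocAlgebra.of ℤ x)

/-- The commutative center `K(A)`: the elements of `A` which commute with all elements. -/
def K (A : Type u) [Mul A] : Set A := {a | ∀ b : A, a * b = b * a}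

section proof

variable {X : Type u}

theorem rel_left (u v : FreeNonUnitalNonAssocAlgebra ℤ X) :
    ringConGen (altRel X) ((u * u) * v) (u * (u * v)) := by
  have h : ringConGen (altRel X) ((u * u) * v - u * (u * v)) 0 :=
    RingConGen.Rel.of _ _ ⟨u, v, Or.inl rfl, rfl⟩
  have h2 := (ringConGen (altRel X)).add h ((ringConGen (altRel X)).refl (u * (u * v)))
  rwa [sub_add_cancel, zero_add] at h2

theorem rel_right (u v : FreeNonUnitalNonAssocAlgebra ℤ X) :
    ringConGen (altRel X) ((v * u) * u) (v * (u * u)) := by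
  have h : ringConGen (altRel X) ((v * u) * u - v * (u * u)) 0 :=
    RingConGen.Rel.of _ _ ⟨u, v, Or.inr rfl, rfl⟩
  have h2 := (ringConGen (altRel X)).add h ((ringConGen (altRel X)).refl (v * (u * u)))
  rwa [sub_add_cancel, zero_add] at h2

theorem alt_left (u v : Alt X) : (u * u) * v = u * (u * v) := by
  induction u using Quotient.inductionOn' with | _ u =>
  induction v using Quotient.inductionOn' with | _ v =>
  exact ((ringConGen (altRel X)).eq).2 (rel_left u v)

theorem alt_right (u v : Alt X) : (v * u) * u = v * (u * u) := by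
  induction u using Quotient.inductionOn' with | _ u =>
  induction v using Quotient.inductionOn' with | _ v =>
  exact ((ringConGen (altRel X)).eq).2 (rel_right u v)

theorem lift_rel {B : Type*} [NonUnitalNonAssocRing B] (hl : ∀ u v : B, (u * u) * v = u * (u * v))
    (hr : ∀ u v : B, (v * u) * u = v * (u * u)) (f : FreeNonUnitalNonAssocAlgebra ℤ X →ₙ+* B)
    {a b : FreeNonUnitalNonAssocAlgebra ℤ X} (h : ringConGen (altRel X) a b) : f a = f b := by
  change RingConGen.Rel (altRel X) a b at h
  induction h with
  | of x y hxy =>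
    obtain ⟨u, v, h | h, rfl⟩ := hxy
    · rw [h, map_sub, map_mul, map_mul, map_mul, map_mul, hl, sub_self, map_zero]
    · rw [h, map_sub, map_mul, map_mul, map_mul, map_mul, hr, sub_self, map_zero]
  | refl => rfl
  | symm _ ih => exact ih.symm
  | trans _ _ ih1 ih2 => exact ih1.trans ih2
  | add _ _ ih1 ih2 => rw [map_add, map_add, ih1, ih2]
  | mul _ _ ih1 ih2 => rw [map_mul, map_mul, ih1, ih2]

/-- the homomorphism to an alternative ring with given values at the generators -/
noncomputable def liftAlt {B : Type*} [NonUnitalNonAssocRing B]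
    (hl : ∀ u v : B, (u * u) * v = u * (u * v))
    (hr : ∀ u v : B, (v * u) * u = v * (u * u)) (f : X → B) : Alt X →ₙ+* B :=
  let g : FreeNonUnitalNonAssocAlgebra ℤ X →ₙ+* B :=
    { toFun := (FreeNonUnitalNonAssocAlgebra.lift ℤ f : FreeNonUnitalNonAssocAlgebra ℤ X →ₙₐ[ℤ] B)
      map_mul' := map_mul _
      map_zero' := map_zero _
      map_add' := map_add _ }
  { toFun := fun q => Quotient.liftOn' q g (fun _ _ h => lift_rel hl hr g h)
    map_mul' := fun a b => by
      induction a using Quotient.inductionOn' with | _ a =>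
      induction b using Quotient.inductionOn' with | _ b =>
      exact map_mul g a b
    map_zero' := map_zero g
    map_add' := fun a b => by
      induction a using Quotient.inductionOn' with | _ a =>
      induction b using Quotient.inductionOn' with | _ b =>
      exact map_add g a b }

theorem liftAlt_gen {B : Type*} [NonUnitalNonAssocRing B]
    (hl : ∀ u v : B, (u * u) * v = u * (u * v))
    (hr : ∀ u v : B, (v * u) * u = v * (u * u)) (f : X → B) (x : X) :
    liftAlt hl hr f (gen x) = f x :=
  FreeNonUnitalNonAssocAlgebra.lift_of_apply ℤ f x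

theorem closure_gen : NonUnitalSubring.closure (Set.range (gen : X → Alt X)) = ⊤ := by
  rw [eq_top_iff]
  intro a _
  have hm : ∀ w : FreeMagma X, (RingCon.toQuotient (MonoidAlgebra.ofMagma ℤ _ w :
      FreeNonUnitalNonAssocAlgebra ℤ X) : Alt X) ∈
      NonUnitalSubring.closure (Set.range (gen : X → Alt X)) := by
    intro w
    induction w using FreeMagma.recOnMul with
    | ih1 i => exact NonUnitalSubring.subset_closure ⟨i, rfl⟩
    | ih2 a b iha ihb =>
      rw [map_mul]
      exact mul_mem iha ihb
  induction a using Quotient.inductionOn' with | _ a =>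
  induction a using MonoidAlgebra.induction_linear with
  | zero => exact zero_mem _
  | add f g hf hg => exact add_mem (hf trivial) (hg trivial)
  | single w n =>
    have h1 : (MonoidAlgebra.single w n : FreeNonUnitalNonAssocAlgebra ℤ X) =
        n • (MonoidAlgebra.ofMagma ℤ _ w : FreeNonUnitalNonAssocAlgebra ℤ X) := by
      simp [MonoidAlgebra.ofMagma]
    rw [h1]
    exact zsmul_mem (hm w) n

open Pool.Agent.Lib.MP_20522e_al in
/-- the main theorem in terms of three generators -/
theorem main_xyz (x y z : X) (hxy : x ≠ y) (hxz : x ≠ z) (hyz : y ≠ z)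
    (hall : ∀ w, w = x ∨ w = y ∨ w = z) (a : Alt X) (h1 : a * gen x = gen x * a)
    (h2 : a * gen y = gen y * a) (h3 : (a * gen x) * gen y = gen y * (a * gen x)) : a = 0 := by
  classical
  have hc : NonUnitalSubring.closure {gen x, gen y, gen z} = (⊤ : NonUnitalSubring (Alt X)) := by
    rw [← closure_gen]
    congr 1
    ext w
    constructor
    · rintro (rfl | rfl | rfl)
      · exact ⟨x, rfl⟩
      · exact ⟨y, rfl⟩
      · exact ⟨z, rfl⟩
    · rintro ⟨i, rfl⟩
      rcases hall i with rfl | rfl | rfl
      · exact Or.inl rfl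
      · exact Or.inr (Or.inl rfl)
      · exact Or.inr (Or.inr rfl)
  have hval : ∀ {B : Type} (p q r : B), ∃ f : X → B, f x = p ∧ f y = q ∧ f z = r := by
    intro B p q r
    refine ⟨fun w => if w = x then p else if w = y then q else r, ?_, ?_, ?_⟩
    · simp
    · simp [hxy.symm]
    · simp [hxz.symm, hyz.symm]
  obtain ⟨f, fx, fy, fz⟩ := hval (FreeAlgebra.ι ℤ (0 : Fin 3)) (FreeAlgebra.ι ℤ 1)
    (FreeAlgebra.ι ℤ 2)
  obtain ⟨g, gx, gy, gz⟩ := hval
    (XX (MvPolynomial.X 0 : MvPolynomial (Fin 10) ℤ) (MvPolynomial.X 1) (MvPolynomial.X 2)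
      (MvPolynomial.X 3)) (YY _ _ _ (MvPolynomial.X 4) (MvPolynomial.X 5))
    (ZZ _ _ _ (MvPolynomial.X 6) (MvPolynomial.X 7) (MvPolynomial.X 8) (MvPolynomial.X 9))
  exact main_Q alt_left alt_right hc
    (liftAlt (fun u v => mul_assoc _ _ _) (fun u v => mul_assoc _ _ _) f)
    (by rw [liftAlt_gen, fx]) (by rw [liftAlt_gen, fy]) (by rw [liftAlt_gen, fz])
    (liftAlt AltRing.left_alt (fun u v => AltRing.right_alt u v) g)
    (by rw [liftAlt_gen, gx]) (by rw [liftAlt_gen, gy]) (by rw [liftAlt_gen, gz]) h1 h2 h3

end proof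

theorem result (X : Type u) (hX : Cardinal.mk X = 3) :
    (∀ I : TwoSidedIdeal (Alt X), (∀ a ∈ I, a ∈ K (Alt X)) → I = ⊥) ∧
    ∀ x y : X, x ≠ y → ∀ a : Alt X, a * gen x = gen x * a → a * gen y = gen y * a →
      (a * gen x) * gen y = gen y * (a * gen x) → a = 0 := by
  classical
  have hmain : ∀ x y : X, x ≠ y → ∀ a : Alt X, a * gen x = gen x * a → a * gen y = gen y * a →
      (a * gen x) * gen y = gen y * (a * gen x) → a = 0 := by
    intro x y hxy
    have hfin : Finite X := Cardinal.mk_lt_aleph0_iff.1 (by
      rw [hX]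
      exact_mod_cast Cardinal.natCast_lt_aleph0 (n := 3))
    let _ : Fintype X := Fintype.ofFinite X
    have hcard : Fintype.card X = 3 := by
      rw [Cardinal.mk_fintype] at hX
      exact_mod_cast hX
    have h1 : ((Finset.univ.erase x).erase y).card = 1 := by
      rw [Finset.card_erase_of_mem, Finset.card_erase_of_mem (Finset.mem_univ x),
        Finset.card_univ, hcard]
      exact Finset.mem_erase.2 ⟨hxy.symm, Finset.mem_univ _⟩
    obtain ⟨z, hz⟩ := Finset.card_eq_one.1 h1
    have hz' : z ∈ (Finset.univ.erase x).erase y := by rw [hz]; exact Finset.mem_singleton_self z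
    rw [Finset.mem_erase, Finset.mem_erase] at hz'
    refine main_xyz x y z hxy hz'.2.1.symm hz'.1.symm fun w => ?_
    by_contra hw
    push Not at hw
    have : w ∈ (Finset.univ.erase x).erase y :=
      Finset.mem_erase.2 ⟨hw.2.1, Finset.mem_erase.2 ⟨hw.1, Finset.mem_univ _⟩⟩
    rw [hz, Finset.mem_singleton] at this
    exact hw.2.2 this
  refine ⟨fun I hI => ?_, hmain⟩
  have h2 : 1 < Cardinal.mk X := by
    rw [hX]
    norm_num
  obtain ⟨x, y, hxy⟩ := Cardinal.one_lt_iff_nontrivial.1 h2
  rw [eq_bot_iff]
  intro a ha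
  have h3 : a * gen x ∈ I := I.mul_mem_right _ _ ha
  have h4 : a = 0 := hmain x y hxy a (hI a ha _) (hI a ha _) (hI _ h3 _)
  rw [h4]
  exact zero_mem _

end Pool.Agent.Results.MP_20522e_al.RankThree
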